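import Mathlib
import Pool.Agent.Run7.h879.HC.Bridge
import Pool.Agent.Y1.HZ.Betti
import Pool.Agent.Run7.h879.HC.Real

/-!
# The Hodge realization is full on the motives of the products of all varieties with abelian
# varieties of CM type:
# almost all CM types of all CM fields with few CM subfields, and of all CM fields whose degree
# has a large prime factor

Let `K i` be finitely many CM fields of degrees `2 g i`, pairwise independent: for `i ≠ k` and all
complex embeddings `φ` of `K i` and `ψ` of `K k` some automorphism of `ℂ` is the identity on `φ (K
i)` and the complex conjugation on `ψ (K k)` (this is no condition for one field). Nothing is
assumed about their Galois groups. There are `2 ^ (∑ g i)` families of CM types `Φ i` of the fields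
`K i`. Let `A` be a product of copies of the complex abelian varieties of the CM types `(K i, Φ i)`,
given by the inclusion `per Φ t` of its rational homology `W` in its tangent space.

The variety `Z` is *unrelated* to the fields `K i` (`UnrelatedHodge`): let `w ≠ 0` be a complex
cohomology class on `Z` such that for each automorphism `σ` of `ℂ` the conjugate `σ w` is of pure
type, a sum of classes of types `(p, q)` with `p - q = d σ`. For all such `w` a function `n` on the
complex embeddings of `K i` with `n (conj φ) = - n φ` which is invariant under all automorphisms `τ`
of `ℂ` with `d (σ τ) = d σ` for all `σ` is zero. So it is true for all CM fields if the cohomology
of `Z` has no sub-Hodge structures with complex multiplication except those of type `(p, p)`. And it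
is true (`BettiCriterion`, last part of the theorem) if all Betti numbers of `Z` are less than `2
dim S` for all nonzero spaces `S` of functions `n` with `n (conj φ) = - n φ` that are stable under
the automorphisms of `ℂ`; for a CM field of degree `2 g` with only one such space this is the
condition that **all Betti numbers of `Z` are less than `2 g`**, and nothing else is assumed about
`Z`: neither its Hodge classes nor their algebraicity or absoluteness are known.

The cohomology of `Z` is given by `V : Coh v` (starting files): it is a rational space with a basis
of homogeneous elements and the Hodge operator `V.z`, which is the multiplication by `p - q` on the
classes of type `(p, q)`; `HAZ W v` is the cohomology of `A × Z` (the forms on the homology `W` of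
`A` with values in the cohomology of `Z`), `IsHodgeOnProduct` says that a class is a Hodge class,
and `crossSpan` is the span of the classes `f ⊗ x`, `f` a combination of products of divisor classes
on `A` and `x` a Hodge class on `Z`.

Let `k` be an algebraically closed field with an embedding `σ` in `ℂ`, and let `A` and `Z` be
defined over `k`; the complex varieties above are `σ A` and `σ Z`.

**The property `Q`** (`FullTimes`) of a family of types: for all such `A` and **all** smooth
projective varieties `Z` over `k` such that `σ Z` is unrelated to the fields `K i`

* every Hodge class on `σ A × σ Z` is in `crossSpan`;
* **every Hodge class on `σ A × σ Z` is the image of an absolute Hodge class on `A × Z` over `k`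
  (`FullAZ`) if and only if every Hodge class on `σ Z` is the image of an absolute Hodge class on
  `Z` (`FullZ`).**

The morphisms from the unit object to the Tate twists of the motive of a variety `X` are the
absolute Hodge classes on `X`, and those of their Hodge realizations are the Hodge classes on `σ X`.
So Q1 for these morphisms and `X = A × Z` is equivalent to Q1 for them and `X = Z`. The morphisms of
Hodge structures between the realizations of the motives of `A × Z` and `A' × Z'` are, by duality,
Hodge classes on `(A × A') × (Z × Z')`: if `σ Z × σ Z'` is unrelated to the fields `K i` then the
realization is full on the morphisms between the motives of `A × Z` and `A' × Z'` (of all Tate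
twists and direct summands) if it is full on the classes on `Z × Z'`. For instance it is full if `Z
× Z'` is a variety with motive in `M_k^av` (curves, K3 surfaces, Fermat hypersurfaces) or of
dimension at most three.

The definition of absolute Hodge classes (`IsAbs`, `IsAbsA`) is the one of the problem. Given are
(`Realizations`) the products `R.L` of the de Rham cohomology over `k` and the étale cohomology of
`Z` and `A × Z` (`Components`), the same for `σ` (`R.L₀`) and for all embeddings `τ` of `k` in `ℂ`
(`R.L' τ`), the base change maps `R.b₀`, `R.b τ`, and the comparison maps `R.c₀`, `R.c τ` with the
rational cohomology of the complex varieties `P`, `R.Q τ`. Two properties of these maps are used: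
they are compatible with the restriction to the fibre over the origin; and (`same`) for a
combination `f` of products of divisor classes on `σ A` there is a map `g` on the cohomology over
`k` (the product with the class of the same cycle, which is defined over the algebraically closed
field `k` up to algebraic equivalence), to which correspond the product with `f` and for all `τ` the
product with a combination `f'` of products of divisor classes on `τ A` (`Corresponds`).

**The theorem** (`ForAlmostAll`). There is a constant `C` such that `Q` is true for all families of
types but at most `2 ^ (∑ g i) * ∑ C * rate (K i) (g i) (q i)`. Here `q i` is any prime factor of `g
i` (or `q i = 1`), and `rate K g q` is `(1 + log (2 g)) ^ 16` times the smaller of the numbers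

* `W (K) / √g`, where (`WeightEstimate`) `W (K) ≤ N ^ 2 * D ^ (1 / 4)`; `N` is the number of the CM
  subfields of `K` (with `K`) and `D` is the largest degree of a CM subfield of `K` that is normal
  over `ℚ` with a nonabelian Galois group (`D = 1` if there are none);
* `√g / q`.

So the exceptional types are a proportion `O (g ^ (-1 / 4) * (log g) ^ 16)` of all types of all CM
fields with a bounded number of CM subfields, and `O (g ^ (-1 / 2) * (log g) ^ 16)` if the normal
nonabelian ones have bounded degrees. And they are a proportion `O (g ^ (-δ) * (log g) ^ 16)` of the
types of all CM fields, with any number of subfields, whose degree is divisible by a prime number `q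
≥ g ^ (1 / 2 + δ)`; for small `δ` there are such primes for about `log 2`, that is 69%, of all
numbers `g`.

The proof: if the types are not degenerate then all Hodge classes on `A × Z` are in `crossSpan`
(`Y1/HZ` of the starting files, which was used there for the Hodge conjecture). It is shown here
that the products of combinations of products of divisor classes and of Hodge classes are Hodge
classes on the conjugate varieties, and that the fibre over the origin gives the converse. The bound
for the number of the degenerate types is the one of `AllCMFieldsTimes` (MP_e12fcd_ag) of the
starting files.

The number `W (K)` (`subfieldWeight K`): the automorphisms of `ℂ` act on the rational functions on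
the set of the complex embeddings of `K` which change their sign under complex conjugation. A field
of definition (`fieldsOfDefinition K`) of an isotypic component is a smallest subfield `F` of `K`
such that the values of the functions in the component depend only on the restrictions of the
embeddings to `F`. Then `W (K)` is the sum over these fields `F` of the number of the CM subfields
of `F`, multiplied by `[F : ℚ] ^ (1 / 4)` if `F` is normal over `ℚ` and its Galois group is not
abelian.
-/

set_option autoImplicit false

namespace Pool.Agent.Results.MP_0da4e0_ag.AllCMFieldsTimes

open NumberField Module Pool.Agent.H204R3.CM Pool.Agent.H977R3.CM Pool.Agent.Y1.KN
  Pool.Agent.Y1.HZ Pool.Agent.Run7.h879.HC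

/-- The property of the CM types `Φ i`. -/
def Q : CMProperty := fun _ _ _ _ _ _ Φ => FullTimes Φ

theorem notDegenerate : NotDegenerate Q := fun _ _ _ _ _ _ _ hind hΦ hnd =>
  fullTimes_of_hodgeTimes (hodgeTimes_of_not_degenerate hΦ hind fun i =>
    not_degenerate (hΦ i) (hnd i))

/-- **The Hodge realization is full on the classes on `A × Z` if and only if it is full on the classes on `Z`:
almost all CM types of all CM fields with few CM subfields, and of all CM fields whose degree has a large prime factor.** -/
theorem result : ForAlmostAll Q ∧ WeightEstimate ∧ BettiCriterion :=
  ⟨forAlmostAll notDegenerate, weight_estimate_holds, bettiCriterion_holds⟩

end Pool.Agent.Results.MP_0da4e0_ag.AllCMFieldsTimes
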