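import Mathlib
import Pool.Agent.Run7.h879.HC.Bridge
import Pool.Agent.Y1.HZ.Betti
import Pool.Agent.Run7.h879.HC.Abs

/-!
# Hodge classes and absolute Hodge classes on the products of all varieties with abelian varieties
# of CM type:
# a definite proportion of all CM types of every CM field of degree `2 r ^ k`

Let `K i` be finitely many CM fields of degrees `2 g i`, pairwise independent: for `i ≠ k` and all
complex embeddings `φ` of `K i` and `ψ` of `K k` some automorphism of `ℂ` is the identity on `φ (K
i)` and the complex conjugation on `ψ (K k)` (this is no condition for one field). Nothing is
assumed about their Galois groups. There are `2 ^ (∑ g i)` families of CM types `Φ i` of the fields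
`K i`. Let `A` be a product of copies of the complex abelian varieties of the CM types `(K i, Φ i)`,
given by the inclusion `per Φ t` of its rational homology `W` in its tangent space.

The variety `Z` is *unrelated* to the fields `K i` (`UnrelatedHodge`): let `w ≠ 0` be a complex
cohomology class on `Z` such that for each automorphism `σ` of `ℂ` the conjugate `σ w` is of pure
type, a sum of classes of types `(p, q)` with `p - q = d σ`. For all such `w` a function `n` on the
complex embeddings of `K i` with `n (conj φ) = - n φ` which is invariant under all automorphisms `τ`
of `ℂ` with `d (σ τ) = d σ` for all `σ` is zero. So it is true for all CM fields if the cohomology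
of `Z` has no sub-Hodge structures with complex multiplication except those of type `(p, p)`. And it
is true (`BettiCriterion`, last part of the theorem) if all Betti numbers of `Z` are less than `2
dim S` for all nonzero spaces `S` of functions `n` with `n (conj φ) = - n φ` that are stable under
the automorphisms of `ℂ`; for a CM field of degree `2 g` with only one such space this is the
condition that **all Betti numbers of `Z` are less than `2 g`**, and nothing else is assumed about
`Z`: neither its Hodge classes nor their algebraicity or absoluteness are known.

The cohomology of `Z` is given by `V : Coh v` (starting files): it is a rational space with a basis
of homogeneous elements and the Hodge operator `V.z`, which is the multiplication by `p - q` on the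
classes of type `(p, q)`; `HAZ W v` is the cohomology of `A × Z` (the forms on the homology `W` of
`A` with values in the cohomology of `Z`), `IsHodgeOnProduct` says that a class is a Hodge class,
and `crossSpan` is the span of the classes `f ⊗ x`, `f` a combination of products of divisor classes
on `A` and `x` a Hodge class on `Z`.

**The property `Q`** (`AbsoluteTimes`) of a family of types: for all such `A` and **all** smooth
projective varieties `Z` unrelated to the fields `K i`

* every Hodge class on `A × Z` is in `crossSpan`;
* **all Hodge classes on `A × Z` are absolute Hodge classes if and only if all Hodge classes on `Z`
  are absolute Hodge classes.**

So Q1 for `A × Z` is equivalent to Q1 for `Z`. For instance all Hodge classes on `A × Z` are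
absolute Hodge classes if `Z` is a variety for which this is known (a K3 surface or a hyperkähler
variety of known type, a cubic fourfold, a variety of dimension at most three, a variety with motive
of abelian type), and a Hodge class on `A × Z` which is not absolute exists only if there is one on
`Z`.

The definition of absolute Hodge classes (`IsAbsolute`, `IsAbsoluteA`) is the one of the problem.
Given are (`Conjugates`) the conjugate varieties `A^σ`, `Z^σ` for all automorphisms `σ` of `ℂ` (the
elements of `C.S`), the products `C.L σ` of the de Rham and the étale cohomology of `Z^σ` and of
`A^σ × Z^σ` (`Components`), the map `C.c₀ σ` which sends a rational class on `Z` or on `A × Z` to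
the images of its components under `σ`, and the map `C.c σ` which sends a rational class on `Z^σ` or
on `A^σ × Z^σ` to its components. So `x` is an absolute Hodge class if it is a Hodge class and for
all `σ` there is a Hodge class `x'` on `Z^σ` with `C.c σ x' = C.c₀ σ x`. Two properties of these
maps are used: they are compatible with the restriction to the fibre over the origin; and
(`SameCycles`) for a combination `f` of products of divisor classes on `A` there is one on `A^σ`
(the class of the conjugate cycle), `f'`, such that `f ⊗ x` and `f' ⊗ x'` have conjugate components
if `x` and `x'` have.

**The theorem.** Let `E` be **any CM field of degree `2 g = 2 r ^ k`**, `r` a prime number, of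
degree at least `16` if `r = 2`. Nothing is assumed about the Galois group of the normal closure of
`E`, and nothing about the subfields of `E`.

* (`ForProportion`) The property `Q` is true for **at least `(1 - 1 / r) 2 ^ g` of the `2 ^ g` CM
  types of `E`**; so for at least one half of them if `r = 2`, and for more if `r` is odd.
* (`ForOneOfTwo`) There is a set `B` of embeddings of `E`, stable under complex conjugation, such
  that for **every** CM type `Φ` it is true for `Φ` or for the symmetric difference of `Φ` and `B`.
* (`ForSixteenPercent`) There is a number `g₀` such that for every CM field that is **abelian over
  `ℚ`**, of any degree `2 g ≥ 2 g₀`, it is true for at least 16 percent of all `2 ^ g` types.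

All this is proved more generally for finitely many pairwise independent fields `K i`; the
proportions are then multiplied. The estimate `AllCMFieldsTimes` says nothing for these fields if
they have many CM subfields (for instance for the multiquadratic ones).

The proof: if the types are not degenerate then all Hodge classes on `A × Z` are in `crossSpan`
(`Y1/HZ` of the starting files, which was used there for the Hodge conjecture). It is shown here
that the products of combinations of products of divisor classes and of Hodge classes are Hodge
classes on the conjugate varieties, and that the fibre over the origin gives the converse. The
proportion of the CM types without relations is given by a theorem of the starting files (`Q29/EP`),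
which was used there for slope types over finite fields.
-/

set_option autoImplicit false

namespace Pool.Agent.Results.MP_4e1cf2_ag.HalfOfAllTimes

open NumberField Module Pool.Agent.H204R3.CM Pool.Agent.H977R3.CM Pool.Agent.Y1.KN
  Pool.Agent.Y1.HZ Pool.Agent.Run7.h879.HC

/-- The property of the CM types `Φ i`. -/
def Q : CMProperty := fun _ _ _ _ _ _ Φ => AbsoluteTimes Φ

theorem notDegenerate : NotDegenerate Q := fun _ _ _ _ _ _ _ hind hΦ hnd =>
  absoluteTimes_of_hodgeTimes (hodgeTimes_of_not_degenerate hΦ hind fun i =>
    not_degenerate (hΦ i) (hnd i))

/-- **Hodge classes on `A × Z` are absolute Hodge classes if and only if those on `Z` are:
a definite proportion of all CM types of every CM field of degree `2 r ^ k`.** -/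
theorem result : ForProportion Q ∧ ForOneOfTwo Q ∧ ForSixteenPercent Q ∧ BettiCriterion :=
  ⟨forProportion notDegenerate, forOneOfTwo notDegenerate, forSixteenPercent notDegenerate,
    bettiCriterion_holds⟩

end Pool.Agent.Results.MP_4e1cf2_ag.HalfOfAllTimes
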